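import Mathlib

/-!
# MP_3c540c_co: faithful circuit covers for weights in k times the nonnegative integers, k odd

For every odd `k`, a finite graph (parallel edges allowed) with property `P_k` contains no
subdivision of the Petersen graph.  With the theorem of Alspach, Goddyn and Zhang (listed in
the problem) this determines, for every odd `k`, the graphs with property `P_k`: they are the
graphs with property `P_1`.
-/

set_option autoImplicit false

open Finset

namespace Pool.Agent.Results.MP_3c540c_co.OddMultiples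

/-- A graph with vertex set `V` and edge set `E`; parallel edges are allowed, loops are not. -/
structure MGraph (V E : Type) where
  /-- the two ends of an edge -/
  ends : E → Sym2 V
  /-- no loops -/
  loopless : ∀ a, ¬ (ends a).IsDiag

section Basic

variable {V E : Type} [Fintype V] [DecidableEq V] [Fintype E] [DecidableEq E]

/-- The members of `F` which have `v` as an end. -/
def inc (G : MGraph V E) (F : Finset E) (v : V) : Finset E :=
  F.filter (fun a => v ∈ G.ends a)

/-- `C` is (the edge set of) a circuit: a connected `2`-regular subgraph. -/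
def IsCircuit (G : MGraph V E) (C : Finset E) : Prop :=
  C.Nonempty ∧ (∀ v, (inc G C v).card = 0 ∨ (inc G C v).card = 2) ∧
    ∀ D, D ⊆ C → D.Nonempty → D ≠ C →
      ∃ a ∈ D, ∃ a' ∈ C \ D, ∃ v, v ∈ G.ends a ∧ v ∈ G.ends a'

/-- The edge-cut of `X`: all edges with exactly one end in `X`. -/
def cut (G : MGraph V E) (X : Finset V) : Finset E :=
  univ.filter (fun a => (∃ p ∈ X, p ∈ G.ends a) ∧ ∃ q, q ∉ X ∧ q ∈ G.ends a)

/-- Admissible weights. -/
def Admissible (G : MGraph V E) (w : E → ℕ) : Prop :=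
  ∀ X : Finset V, X.Nonempty → X ≠ univ → ∀ a ∈ cut G X, w a ≤ ∑ a' ∈ (cut G X).erase a, w a'

/-- Eulerian weights. -/
def Eulerian (G : MGraph V E) (w : E → ℕ) : Prop :=
  ∀ X : Finset V, X.Nonempty → X ≠ univ → Even (∑ a ∈ cut G X, w a)

/-- `(G, w)` has a faithful circuit cover; `χ C` is the multiplicity of the circuit `C`. -/
def HasFaithfulCover (G : MGraph V E) (w : E → ℕ) : Prop :=
  ∃ χ : Finset E → ℕ, (∀ C, χ C ≠ 0 → IsCircuit G C) ∧
    ∀ a, ∑ C ∈ univ.filter (fun C : Finset E => a ∈ C), χ C = w a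

/-- Property `P_k`. -/
def HasP (G : MGraph V E) (k : ℕ) : Prop :=
  ∀ w : E → ℕ, (∀ a, k ∣ w a) → Admissible G w → Eulerian G w → HasFaithfulCover G w

end Basic

/-- The vertices of the Petersen graph: `(false, i)` on the outer and `(true, i)` on the inner
pentagon. -/
abbrev PV := Bool × Fin 5

/-- The fifteen edges of the Petersen graph. -/
abbrev PE := Fin 3 × Fin 5

/-- First end of an edge of the Petersen graph. -/
def src (f : PE) : PV := if f.1 = 2 then (true, f.2) else (false, f.2)

/-- Second end of an edge of the Petersen graph: the edge `(0, i)` joins the outer vertices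
`i` and `i + 1`, the edge `(1, i)` is the spoke joining the outer vertex `i` to the inner
vertex `i`, the edge `(2, i)` joins the inner vertices `i` and `i + 2` (indices modulo `5`). -/
def tgt (f : PE) : PV :=
  if f.1 = 0 then (false, f.2 + 1) else if f.1 = 1 then (true, f.2) else (true, f.2 + 2)

/-- A subdivision of the Petersen graph contained in `G`: branch vertices `b v`, and for every
edge `f` of the Petersen graph a path of `G` with vertices `x f 0, …, x f (len f)` and edges
`e f 0, …, e f (len f - 1)` from `b (src f)` to `b (tgt f)`; the interior vertices of the paths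
are distinct from each other and from all end vertices of the paths. -/
structure PetersenSubdivision {V E : Type} (G : MGraph V E) where
  /-- branch vertices -/
  b : PV → V
  b_inj : Function.Injective b
  /-- lengths of the paths -/
  len : PE → ℕ
  len_pos : ∀ f, 0 < len f
  /-- vertices of the paths -/
  x : PE → ℕ → V
  /-- edges of the paths -/
  e : PE → ℕ → E
  x_zero : ∀ f, x f 0 = b (src f)
  x_len : ∀ f, x f (len f) = b (tgt f)
  ends_e : ∀ f i, i < len f → G.ends (e f i) = s(x f i, x f (i + 1))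
  interior : ∀ f i g j, 0 < i → i < len f → j ≤ len g → x f i = x g j → f = g ∧ i = j

section Proof

set_option linter.unusedSectionVars false

variable {V E : Type} [Fintype V] [DecidableEq V] [Fintype E] [DecidableEq E]
variable {G : MGraph V E}

theorem src_ne_tgt : ∀ f : PE, src f ≠ tgt f := by decide

theorem petersen_simple : ∀ f g : PE,
    (src f = src g ∧ tgt f = tgt g) ∨ (src f = tgt g ∧ tgt f = src g) → f = g := by
  decide

theorem branch_is_src : ∀ v : PV, ∃ f : PE, src f = v := by decide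

/-- branch vertices are not interior -/
theorem branch_not_interior (S : PetersenSubdivision G) (v : PV) (g : PE) (j : ℕ)
    (h : S.x g j = S.b v) (hj : j ≤ S.len g) : (j = 0 ∧ src g = v) ∨ (j = S.len g ∧ tgt g = v) := by
  obtain ⟨f, hf⟩ := branch_is_src v
  rcases Nat.eq_zero_or_pos j with h0 | h0
  · left
    refine ⟨h0, ?_⟩
    subst h0
    rw [S.x_zero] at h
    exact S.b_inj h
  · rcases Nat.lt_or_ge j (S.len g) with h1 | h1
    · exfalso
      have h2 : S.x g j = S.x f 0 := by rw [h, S.x_zero, hf]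
      have h3 := S.interior g j f 0 h0 h1 (Nat.zero_le _) h2
      omega
    · right
      have h2 : j = S.len g := le_antisymm hj h1
      refine ⟨h2, ?_⟩
      subst h2
      rw [S.x_len] at h
      exact S.b_inj h

theorem x_inj (S : PetersenSubdivision G) (f : PE) (i j : ℕ) (hi : i ≤ S.len f)
    (hj : j ≤ S.len f) (h : S.x f i = S.x f j) : i = j := by
  rcases Nat.eq_zero_or_pos i with h0 | h0
  · subst h0
    rw [S.x_zero] at h
    rcases branch_not_interior S (src f) f j h.symm hj with h1 | h1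
    · exact h1.1.symm
    · exact absurd h1.2.symm (src_ne_tgt f)
  · rcases Nat.lt_or_ge i (S.len f) with h1 | h1
    · exact (S.interior f i f j h0 h1 hj h).2
    · have h2 : i = S.len f := le_antisymm hi h1
      subst h2
      rw [S.x_len] at h
      rcases branch_not_interior S (tgt f) f j h.symm hj with h3 | h3
      · exact absurd h3.2 (src_ne_tgt f)
      · exact h3.1.symm

theorem e_inj (S : PetersenSubdivision G) (f : PE) (i : ℕ) (g : PE) (j : ℕ)
    (hi : i < S.len f) (hj : j < S.len g) (h : S.e f i = S.e g j) : f = g ∧ i = j := by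
  have h1 : s(S.x f i, S.x f (i + 1)) = s(S.x g j, S.x g (j + 1)) := by
    rw [← S.ends_e f i hi, ← S.ends_e g j hj, h]
  rw [Sym2.eq_iff] at h1
  by_cases hfg : f = g
  · subst hfg
    refine ⟨rfl, ?_⟩
    rcases h1 with h1 | h1
    · exact x_inj S f i j (by omega) (by omega) h1.1
    · have h2 := x_inj S f i (j + 1) (by omega) (by omega) h1.1
      have h3 := x_inj S f (i + 1) j (by omega) (by omega) h1.2
      omega
  · exfalso
    -- no interior vertex can occur
    have key : ∀ a c, a ≤ S.len f → c ≤ S.len g → S.x f a = S.x g c →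
        (a = 0 ∨ a = S.len f) ∧ (c = 0 ∨ c = S.len g) := by
      intro a c ha hc hac
      constructor
      · by_contra hcon
        exact hfg (S.interior f a g c (by omega) (by omega) hc hac).1
      · by_contra hcon
        exact hfg (S.interior g c f a (by omega) (by omega) ha hac.symm).1.symm
    have hends : i = 0 ∧ i + 1 = S.len f ∧ j = 0 ∧ j + 1 = S.len g := by
      rcases h1 with h1 | h1
      · have h2 := key i j (by omega) (by omega) h1.1
        have h3 := key (i + 1) (j + 1) (by omega) (by omega) h1.2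
        omega
      · have h2 := key i (j + 1) (by omega) (by omega) h1.1
        have h3 := key (i + 1) j (by omega) (by omega) h1.2
        omega
    obtain ⟨e1, e2, e3, e4⟩ := hends
    rw [e2, e4, e1, e3, S.x_zero, S.x_len, S.x_zero, S.x_len] at h1
    refine hfg (petersen_simple f g ?_)
    rcases h1 with h1 | h1
    · exact Or.inl ⟨S.b_inj h1.1, S.b_inj h1.2⟩
    · exact Or.inr ⟨S.b_inj h1.1, S.b_inj h1.2⟩

/-- The weights `w10` on the Petersen graph: `2` on the spokes, `1` on the two pentagons. -/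
def c (f : PE) : ℕ := if f.1 = 1 then 2 else 1

/-- The weight `k * w10` put on the subdivision. -/
def wt (S : PetersenSubdivision G) (k : ℕ) (a : E) : ℕ :=
  ∑ f : PE, ∑ i ∈ range (S.len f), if S.e f i = a then k * c f else 0

theorem wt_e (S : PetersenSubdivision G) (k : ℕ) (f : PE) (i : ℕ) (hi : i < S.len f) :
    wt S k (S.e f i) = k * c f := by
  unfold wt
  rw [Finset.sum_eq_single f]
  · rw [Finset.sum_eq_single i]
    · simp
    · intro j hj hji
      rw [if_neg]
      intro h
      exact hji (e_inj S f j f i (mem_range.mp hj) hi h).2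
    · intro h
      exact absurd (mem_range.mpr hi) h
  · intro g _ hgf
    apply Finset.sum_eq_zero
    intro j hj
    rw [if_neg]
    intro h
    exact hgf (e_inj S g j f i (mem_range.mp hj) hi h).1
  · intro h
    exact absurd (mem_univ f) h

theorem wt_ne_zero (S : PetersenSubdivision G) (k : ℕ) (a : E) (h : wt S k a ≠ 0) :
    ∃ f i, i < S.len f ∧ S.e f i = a := by
  unfold wt at h
  obtain ⟨f, _, hf⟩ := Finset.exists_ne_zero_of_sum_ne_zero h
  obtain ⟨i, hi, hfi⟩ := Finset.exists_ne_zero_of_sum_ne_zero hf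
  refine ⟨f, i, mem_range.mp hi, ?_⟩
  by_contra hcon
  exact hfi (if_neg hcon)

theorem dvd_wt (S : PetersenSubdivision G) (k : ℕ) (a : E) : k ∣ wt S k a := by
  unfold wt
  refine Finset.dvd_sum fun f _ => Finset.dvd_sum fun i _ => ?_
  split_ifs
  · exact dvd_mul_right _ _
  · exact dvd_zero _

/-- number of edges of the path of `f` in the cut of `X` -/
def N (S : PetersenSubdivision G) (X : Finset V) (f : PE) : ℕ :=
  ∑ i ∈ range (S.len f), if S.e f i ∈ cut G X then 1 else 0

theorem sum_cut (S : PetersenSubdivision G) (k : ℕ) (X : Finset V) :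
    ∑ a ∈ cut G X, wt S k a = ∑ f : PE, k * (c f * N S X f) := by
  unfold wt
  rw [Finset.sum_comm]
  refine Finset.sum_congr rfl fun f _ => ?_
  rw [Finset.sum_comm]
  unfold N
  rw [Finset.mul_sum, Finset.mul_sum]
  refine Finset.sum_congr rfl fun i _ => ?_
  rw [Finset.sum_ite_eq]
  split_ifs <;> simp

theorem mem_cut (S : PetersenSubdivision G) (X : Finset V) (f : PE) (i : ℕ)
    (hi : i < S.len f) :
    S.e f i ∈ cut G X ↔ ¬ (S.x f i ∈ X ↔ S.x f (i + 1) ∈ X) := by
  unfold cut
  simp only [mem_filter, mem_univ, true_and, S.ends_e f i hi, Sym2.mem_iff]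
  constructor
  · rintro ⟨⟨p, hp, hp'⟩, ⟨q, hq, hq'⟩⟩ hcon
    rcases hp' with rfl | rfl <;> rcases hq' with rfl | rfl <;> tauto
  · intro h
    by_cases h1 : S.x f i ∈ X
    · have h2 : S.x f (i + 1) ∉ X := fun h2 => h ⟨fun _ => h2, fun _ => h1⟩
      exact ⟨⟨_, h1, Or.inl rfl⟩, ⟨_, h2, Or.inr rfl⟩⟩
    · have h2 : S.x f (i + 1) ∈ X := by
        by_contra h2
        exact h ⟨fun h3 => absurd h3 h1, fun h3 => absurd h3 h2⟩
      exact ⟨⟨_, h2, Or.inr rfl⟩, ⟨_, h1, Or.inl rfl⟩⟩

/-- indicator of `X` -/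
def y (X : Finset V) (p : V) : ℕ := if p ∈ X then 1 else 0

theorem parity_aux (S : PetersenSubdivision G) (X : Finset V) (f : PE) (n : ℕ)
    (hn : n ≤ S.len f) :
    (∑ i ∈ range n, if S.e f i ∈ cut G X then 1 else 0) % 2
      = (y X (S.x f 0) + y X (S.x f n)) % 2 := by
  induction n with
  | zero => simp; omega
  | succ n ih =>
    have ih' := ih (by omega)
    rw [Finset.sum_range_succ]
    have h1 := mem_cut S X f n (by omega)
    have h2 : (if S.e f n ∈ cut G X then 1 else 0) % 2
        = (y X (S.x f n) + y X (S.x f (n + 1))) % 2 := by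
      unfold y
      by_cases ha : S.x f n ∈ X <;> by_cases hb : S.x f (n + 1) ∈ X <;>
        simp [h1, ha, hb]
    omega

theorem parity (S : PetersenSubdivision G) (X : Finset V) (f : PE) :
    N S X f % 2 = (y X (S.b (src f)) + y X (S.b (tgt f))) % 2 := by
  unfold N
  rw [parity_aux S X f (S.len f) le_rfl, S.x_zero, S.x_len]

theorem y_le (X : Finset V) (p : V) : y X p ≤ 1 := by
  unfold y; split_ifs <;> simp

/-- explicit form of a sum over the fifteen edges -/
theorem sum_PE (F : PE → ℕ) : ∑ f : PE, F f =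
    (F (0, 0) + F (0, 1) + F (0, 2) + F (0, 3) + F (0, 4)) +
    (F (1, 0) + F (1, 1) + F (1, 2) + F (1, 3) + F (1, 4)) +
    (F (2, 0) + F (2, 1) + F (2, 2) + F (2, 3) + F (2, 4)) := by
  rw [Fintype.sum_prod_type, Fin.sum_univ_three, Fin.sum_univ_five, Fin.sum_univ_five,
    Fin.sum_univ_five]

theorem c0 (i : Fin 5) : c (0, i) = 1 := by unfold c; rfl
theorem c1 (i : Fin 5) : c (1, i) = 2 := by unfold c; rfl
theorem c2 (i : Fin 5) : c (2, i) = 1 := by unfold c; rfl

/-- all fifteen parities -/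
theorem parities (S : PetersenSubdivision G) (X : Finset V) :
    (N S X (0, 0) % 2 = (y X (S.b (false, 0)) + y X (S.b (false, 1))) % 2 ∧
     N S X (0, 1) % 2 = (y X (S.b (false, 1)) + y X (S.b (false, 2))) % 2 ∧
     N S X (0, 2) % 2 = (y X (S.b (false, 2)) + y X (S.b (false, 3))) % 2 ∧
     N S X (0, 3) % 2 = (y X (S.b (false, 3)) + y X (S.b (false, 4))) % 2 ∧
     N S X (0, 4) % 2 = (y X (S.b (false, 4)) + y X (S.b (false, 0))) % 2) ∧
    (N S X (1, 0) % 2 = (y X (S.b (false, 0)) + y X (S.b (true, 0))) % 2 ∧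
     N S X (1, 1) % 2 = (y X (S.b (false, 1)) + y X (S.b (true, 1))) % 2 ∧
     N S X (1, 2) % 2 = (y X (S.b (false, 2)) + y X (S.b (true, 2))) % 2 ∧
     N S X (1, 3) % 2 = (y X (S.b (false, 3)) + y X (S.b (true, 3))) % 2 ∧
     N S X (1, 4) % 2 = (y X (S.b (false, 4)) + y X (S.b (true, 4))) % 2) ∧
    (N S X (2, 0) % 2 = (y X (S.b (true, 0)) + y X (S.b (true, 2))) % 2 ∧
     N S X (2, 1) % 2 = (y X (S.b (true, 1)) + y X (S.b (true, 3))) % 2 ∧
     N S X (2, 2) % 2 = (y X (S.b (true, 2)) + y X (S.b (true, 4))) % 2 ∧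
     N S X (2, 3) % 2 = (y X (S.b (true, 3)) + y X (S.b (true, 0))) % 2 ∧
     N S X (2, 4) % 2 = (y X (S.b (true, 4)) + y X (S.b (true, 1))) % 2) :=
  ⟨⟨parity S X (0, 0), parity S X (0, 1), parity S X (0, 2), parity S X (0, 3),
    parity S X (0, 4)⟩,
   ⟨parity S X (1, 0), parity S X (1, 1), parity S X (1, 2), parity S X (1, 3),
    parity S X (1, 4)⟩,
   ⟨parity S X (2, 0), parity S X (2, 1), parity S X (2, 2), parity S X (2, 3),
    parity S X (2, 4)⟩⟩

theorem par5 {n0 n1 n2 n3 n4 a0 a1 a2 a3 a4 : ℕ} (h0 : n0 % 2 = (a0 + a1) % 2)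
    (h1 : n1 % 2 = (a1 + a2) % 2) (h2 : n2 % 2 = (a2 + a3) % 2) (h3 : n3 % 2 = (a3 + a4) % 2)
    (h4 : n4 % 2 = (a4 + a0) % 2) : (n0 + n1 + n2 + n3 + n4) % 2 = 0 := by
  have h0' : n0 ≡ a0 + a1 [MOD 2] := h0
  have h1' : n1 ≡ a1 + a2 [MOD 2] := h1
  have h2' : n2 ≡ a2 + a3 [MOD 2] := h2
  have h3' : n3 ≡ a3 + a4 [MOD 2] := h3
  have h4' : n4 ≡ a4 + a0 [MOD 2] := h4
  have h5 := (((h0'.add h1').add h2').add h3').add h4'
  have h6 : a0 + a1 + (a1 + a2) + (a2 + a3) + (a3 + a4) + (a4 + a0)
      = 2 * (a0 + a1 + a2 + a3 + a4) := by ring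
  rw [h6] at h5
  have h7 : (n0 + n1 + n2 + n3 + n4) % 2 = (2 * (a0 + a1 + a2 + a3 + a4)) % 2 := h5
  rw [h7]
  exact Nat.mul_mod_right _ _

theorem const2 {n a b : ℕ} (h : n % 2 = (a + b) % 2) (hn : n = 0) (ha : a ≤ 1) (hb : b ≤ 1) :
    a = b := by omega

theorem total_even (S : PetersenSubdivision G) (X : Finset V) :
    Even (∑ f : PE, c f * N S X f) := by
  rw [sum_PE]
  obtain ⟨⟨p00, p01, p02, p03, p04⟩, -, ⟨p20, p21, p22, p23, p24⟩⟩ := parities S X
  have e1 := par5 p00 p01 p02 p03 p04
  have e2 := par5 (n0 := N S X (2, 0)) (n1 := N S X (2, 2)) (n2 := N S X (2, 4))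
    (n3 := N S X (2, 1)) (n4 := N S X (2, 3)) p20 p22 p24 p21 p23
  clear p00 p01 p02 p03 p04 p20 p21 p22 p23 p24
  simp only [c0, c1, c2, one_mul]
  rw [Nat.even_iff]
  omega

/-- Numerical core of admissibility. -/
theorem core (a b : Fin 5 → ℕ) (ha : ∀ i, a i ≤ 1) (hb : ∀ i, b i ≤ 1) (n0 n1 n2 : Fin 5 → ℕ)
    (h0 : ∀ i, n0 i % 2 = (a i + a (i + 1)) % 2)
    (h1 : ∀ i, n1 i % 2 = (a i + b i) % 2)
    (h2 : ∀ i, n2 i % 2 = (b i + b (i + 2)) % 2)
    (i : Fin 5) (hi : 1 ≤ n1 i) :
    4 ≤ ((n0 0 + n0 1 + n0 2 + n0 3 + n0 4) + 2 * (n1 0 + n1 1 + n1 2 + n1 3 + n1 4)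
      + (n2 0 + n2 1 + n2 2 + n2 3 + n2 4)) := by
  have q : 1 ≤ n1 0 + n1 1 + n1 2 + n1 3 + n1 4 := by
    clear h0 h1 h2 ha hb
    fin_cases i <;> simp at hi <;> omega
  by_contra hcon
  -- exactly one spoke crossing, and at most one crossing on the pentagons, hence none
  have e1 : n1 0 + n1 1 + n1 2 + n1 3 + n1 4 = 1 := by omega
  have e2 : (n0 0 + n0 1 + n0 2 + n0 3 + n0 4) % 2 = 0 :=
    par5 (h0 0) (h0 1) (h0 2) (h0 3) (h0 4)
  have e3 : (n2 0 + n2 2 + n2 4 + n2 1 + n2 3) % 2 = 0 :=
    par5 (h2 0) (h2 2) (h2 4) (h2 1) (h2 3)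
  have e4 : n0 0 + n0 1 + n0 2 + n0 3 + n0 4 = 0 := by omega
  have e5 : n2 0 + n2 1 + n2 2 + n2 3 + n2 4 = 0 := by omega
  have f1 : a 0 = a 1 := const2 (h0 0) (by omega) (ha _) (ha _)
  have f2 : a 1 = a 2 := const2 (h0 1) (by omega) (ha _) (ha _)
  have f3 : a 2 = a 3 := const2 (h0 2) (by omega) (ha _) (ha _)
  have f4 : a 3 = a 4 := const2 (h0 3) (by omega) (ha _) (ha _)
  have g1 : b 0 = b 2 := const2 (h2 0) (by omega) (hb _) (hb _)
  have g2 : b 2 = b 4 := const2 (h2 2) (by omega) (hb _) (hb _)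
  have g3 : b 4 = b 1 := const2 (h2 4) (by omega) (hb _) (hb _)
  have g4 : b 1 = b 3 := const2 (h2 1) (by omega) (hb _) (hb _)
  have p0 := h1 0
  have p1 := h1 1
  have p2 := h1 2
  have p3 := h1 3
  have p4 := h1 4
  rw [← f1, ← g3, ← g2, ← g1] at p1
  rw [← f2, ← f1, ← g1] at p2
  rw [← f3, ← f2, ← f1, ← g4, ← g3, ← g2, ← g1] at p3
  rw [← f4, ← f3, ← f2, ← f1, ← g2, ← g1] at p4
  clear f1 f2 f3 f4 g1 g2 g3 g4 e2 e3 e4 e5 hcon h0 h1 h2 ha hb
  generalize (a 0 + b 0) % 2 = t at *
  omega

theorem two_le_total (S : PetersenSubdivision G) (X : Finset V) (f : PE)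
    (hf : 1 ≤ N S X f) : 2 * c f ≤ ∑ g : PE, c g * N S X g := by
  have hle : c f * N S X f ≤ ∑ g : PE, c g * N S X g :=
    Finset.single_le_sum (f := fun g => c g * N S X g) (fun g _ => Nat.zero_le _) (mem_univ f)
  by_cases h1 : f.1 = 1
  · obtain ⟨f1, i⟩ := f
    simp only at h1
    subst h1
    have h2 := core (fun i => y X (S.b (false, i))) (fun i => y X (S.b (true, i)))
      (fun i => y_le X _) (fun i => y_le X _) (fun i => N S X (0, i)) (fun i => N S X (1, i))
      (fun i => N S X (2, i)) (fun i => parity S X (0, i)) (fun i => parity S X (1, i))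
      (fun i => parity S X (2, i)) i hf
    rw [sum_PE]
    simp only [c0, c1, c2, one_mul]
    omega
  · have h2 : c f = 1 := by unfold c; rw [if_neg h1]
    have h3 := total_even S X
    rw [Nat.even_iff] at h3
    rw [h2] at hle ⊢
    omega

theorem admissible_wt (S : PetersenSubdivision G) (k : ℕ) : Admissible G (wt S k) := by
  intro X _ _ a ha
  have h1 := Finset.add_sum_erase (cut G X) (wt S k) ha
  by_cases h0 : wt S k a = 0
  · rw [h0]; exact Nat.zero_le _
  · obtain ⟨f, i, hi, rfl⟩ := wt_ne_zero S k a h0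
    have h2 : 1 ≤ N S X f := by
      unfold N
      have := Finset.single_le_sum (f := fun i => if S.e f i ∈ cut G X then 1 else 0)
        (fun g _ => Nat.zero_le _) (mem_range.mpr hi)
      simp only [if_pos ha] at this
      exact this
    have h3 := two_le_total S X f h2
    have h4 : 2 * wt S k (S.e f i) ≤ ∑ a ∈ cut G X, wt S k a := by
      rw [wt_e S k f i hi, sum_cut, ← Finset.mul_sum]
      calc 2 * (k * c f) = k * (2 * c f) := by ring
        _ ≤ _ := Nat.mul_le_mul_left k h3
    omega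

theorem eulerian_wt (S : PetersenSubdivision G) (k : ℕ) : Eulerian G (wt S k) := by
  intro X _ _
  rw [sum_cut, ← Finset.mul_sum]
  exact (total_even S X).mul_left k

/-- a circuit inside the subdivision contains both or none of two consecutive edges -/
theorem consecutive (S : PetersenSubdivision G) (C : Finset E)
    (hdeg : ∀ v, (inc G C v).card = 0 ∨ (inc G C v).card = 2)
    (hC : ∀ a ∈ C, ∃ f i, i < S.len f ∧ S.e f i = a)
    (f : PE) (i : ℕ) (hi : i + 1 < S.len f) : S.e f i ∈ C ↔ S.e f (i + 1) ∈ C := by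
  have hsub : inc G C (S.x f (i + 1)) ⊆ {S.e f i, S.e f (i + 1)} := by
    intro a ha
    unfold inc at ha
    rw [mem_filter] at ha
    obtain ⟨g, j, hj, rfl⟩ := hC a ha.1
    have h1 := ha.2
    rw [S.ends_e g j hj, Sym2.mem_iff] at h1
    rw [mem_insert, mem_singleton]
    rcases h1 with h1 | h1
    · obtain ⟨h2, h3⟩ := S.interior f (i + 1) g j (by omega) hi (by omega) h1
      subst h2
      right
      rw [h3]
    · obtain ⟨h2, h3⟩ := S.interior f (i + 1) g (j + 1) (by omega) hi (by omega) h1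
      subst h2
      left
      have : i = j := by omega
      rw [this]
  have hv1 : S.x f (i + 1) ∈ G.ends (S.e f i) := by
    rw [S.ends_e f i (by omega)]; exact Sym2.mem_mk_right _ _
  have hv2 : S.x f (i + 1) ∈ G.ends (S.e f (i + 1)) := by
    rw [S.ends_e f (i + 1) hi]; exact Sym2.mem_mk_left _ _
  constructor
  · intro h
    by_contra hcon
    have h1 : inc G C (S.x f (i + 1)) ⊆ {S.e f i} := by
      intro a ha
      have h2 := hsub ha
      rw [mem_insert, mem_singleton] at h2
      rw [mem_singleton]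
      rcases h2 with h2 | h2
      · exact h2
      · exfalso
        subst h2
        exact hcon (mem_filter.mp ha).1
    have h2 := Finset.card_le_card h1
    rw [card_singleton] at h2
    have h3 : 0 < (inc G C (S.x f (i + 1))).card :=
      Finset.card_pos.mpr ⟨S.e f i, mem_filter.mpr ⟨h, hv1⟩⟩
    rcases hdeg (S.x f (i + 1)) with h4 | h4 <;> omega
  · intro h
    by_contra hcon
    have h1 : inc G C (S.x f (i + 1)) ⊆ {S.e f (i + 1)} := by
      intro a ha
      have h2 := hsub ha
      rw [mem_insert, mem_singleton] at h2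
      rw [mem_singleton]
      rcases h2 with h2 | h2
      · exfalso
        subst h2
        exact hcon (mem_filter.mp ha).1
      · exact h2
    have h2 := Finset.card_le_card h1
    rw [card_singleton] at h2
    have h3 : 0 < (inc G C (S.x f (i + 1))).card :=
      Finset.card_pos.mpr ⟨S.e f (i + 1), mem_filter.mpr ⟨h, hv2⟩⟩
    rcases hdeg (S.x f (i + 1)) with h4 | h4 <;> omega

theorem along (S : PetersenSubdivision G) (C : Finset E)
    (hdeg : ∀ v, (inc G C v).card = 0 ∨ (inc G C v).card = 2)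
    (hC : ∀ a ∈ C, ∃ f i, i < S.len f ∧ S.e f i = a)
    (f : PE) (i : ℕ) (hi : i < S.len f) : S.e f 0 ∈ C ↔ S.e f i ∈ C := by
  induction i with
  | zero => exact Iff.rfl
  | succ n ih => exact (ih (by omega)).trans (consecutive S C hdeg hC f n hi)

theorem inc_branch (S : PetersenSubdivision G) (C : Finset E)
    (hdeg : ∀ v, (inc G C v).card = 0 ∨ (inc G C v).card = 2)
    (hC : ∀ a ∈ C, ∃ f i, i < S.len f ∧ S.e f i = a) (v : PV) :
    ((univ.filter (fun f : PE => src f = v ∨ tgt f = v)).filter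
      (fun f => S.e f 0 ∈ C)).card = (inc G C (S.b v)).card := by
  refine Finset.card_bij (fun f _ => if src f = v then S.e f 0 else S.e f (S.len f - 1)) ?_ ?_ ?_
  · intro f hf
    rw [mem_filter, mem_filter] at hf
    obtain ⟨⟨-, hf1⟩, hf2⟩ := hf
    have hl := S.len_pos f
    unfold inc
    rw [mem_filter]
    by_cases h1 : src f = v
    · rw [if_pos h1]
      refine ⟨hf2, ?_⟩
      rw [S.ends_e f 0 hl, S.x_zero, h1]
      exact Sym2.mem_mk_left _ _
    · rw [if_neg h1]
      refine ⟨(along S C hdeg hC f (S.len f - 1) (by omega)).mp hf2, ?_⟩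
      rw [S.ends_e f (S.len f - 1) (by omega),
        show S.len f - 1 + 1 = S.len f by omega, S.x_len]
      rcases hf1 with h2 | h2
      · exact absurd h2 h1
      · rw [h2]; exact Sym2.mem_mk_right _ _
  · intro f _ g _ h
    have hl := S.len_pos f
    have hl' := S.len_pos g
    by_cases h1 : src f = v <;> by_cases h2 : src g = v
    · rw [if_pos h1, if_pos h2] at h
      exact (e_inj S f _ g _ (by omega) (by omega) h).1
    · rw [if_pos h1, if_neg h2] at h
      exact (e_inj S f _ g _ (by omega) (by omega) h).1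
    · rw [if_neg h1, if_pos h2] at h
      exact (e_inj S f _ g _ (by omega) (by omega) h).1
    · rw [if_neg h1, if_neg h2] at h
      exact (e_inj S f _ g _ (by omega) (by omega) h).1
  · intro a ha
    unfold inc at ha
    rw [mem_filter] at ha
    obtain ⟨g, j, hj, rfl⟩ := hC a ha.1
    have h1 := ha.2
    rw [S.ends_e g j hj, Sym2.mem_iff] at h1
    have hg : S.e g 0 ∈ C := (along S C hdeg hC g j hj).mpr ha.1
    rcases h1 with h1 | h1
    · rcases branch_not_interior S v g j h1.symm (by omega) with h2 | h2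
      · refine ⟨g, ?_, ?_⟩
        · rw [mem_filter, mem_filter]
          exact ⟨⟨mem_univ _, Or.inl h2.2⟩, hg⟩
        · rw [if_pos h2.2, h2.1]
      · omega
    · rcases branch_not_interior S v g (j + 1) h1.symm (by omega) with h2 | h2
      · omega
      · refine ⟨g, ?_, ?_⟩
        · rw [mem_filter, mem_filter]
          exact ⟨⟨mem_univ _, Or.inr h2.2⟩, hg⟩
        · have h3 : src g ≠ v := fun h3 => src_ne_tgt g (h3.trans h2.2.symm)
          rw [if_neg h3]
          congr 1
          omega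

/-- indicator of the path of `f` in `C` -/
def t (S : PetersenSubdivision G) (C : Finset E) (f : PE) : ℕ := if S.e f 0 ∈ C then 1 else 0

theorem nb_outer : ∀ i : Fin 5, (univ.filter (fun f : PE => src f = (false, i) ∨
    tgt f = (false, i))) = {((0, i) : PE), (0, i + 4), (1, i)} := by decide

theorem nb_inner : ∀ i : Fin 5, (univ.filter (fun f : PE => src f = (true, i) ∨
    tgt f = (true, i))) = {((2, i) : PE), (2, i + 3), (1, i)} := by decide

theorem nm1 : ∀ i : Fin 5, ((0, i) : PE) ∉ ({(0, i + 4), (1, i)} : Finset PE) ∧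
    ((0, i + 4) : PE) ∉ ({(1, i)} : Finset PE) := by decide

theorem nm2 : ∀ i : Fin 5, ((2, i) : PE) ∉ ({(2, i + 3), (1, i)} : Finset PE) ∧
    ((2, i + 3) : PE) ∉ ({(1, i)} : Finset PE) := by decide

theorem deg_outer (S : PetersenSubdivision G) (C : Finset E)
    (hdeg : ∀ v, (inc G C v).card = 0 ∨ (inc G C v).card = 2)
    (hC : ∀ a ∈ C, ∃ f i, i < S.len f ∧ S.e f i = a) (i : Fin 5) :
    t S C (0, i) + t S C (0, i + 4) + t S C (1, i) = 0 ∨
      t S C (0, i) + t S C (0, i + 4) + t S C (1, i) = 2 := by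
  have h := inc_branch S C hdeg hC (false, i)
  rw [nb_outer, Finset.card_filter, Finset.sum_insert (nm1 i).1, Finset.sum_insert (nm1 i).2,
    Finset.sum_singleton] at h
  have h2 := hdeg (S.b (false, i))
  rw [← h] at h2
  unfold t
  rw [add_assoc]
  exact h2

theorem deg_inner (S : PetersenSubdivision G) (C : Finset E)
    (hdeg : ∀ v, (inc G C v).card = 0 ∨ (inc G C v).card = 2)
    (hC : ∀ a ∈ C, ∃ f i, i < S.len f ∧ S.e f i = a) (i : Fin 5) :
    t S C (2, i) + t S C (2, i + 3) + t S C (1, i) = 0 ∨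
      t S C (2, i) + t S C (2, i + 3) + t S C (1, i) = 2 := by
  have h := inc_branch S C hdeg hC (true, i)
  rw [nb_inner, Finset.card_filter, Finset.sum_insert (nm2 i).1, Finset.sum_insert (nm2 i).2,
    Finset.sum_singleton] at h
  have h2 := hdeg (S.b (true, i))
  rw [← h] at h2
  unfold t
  rw [add_assoc]
  exact h2

theorem t_le (S : PetersenSubdivision G) (C : Finset E) (f : PE) : t S C f ≤ 1 := by
  unfold t; split_ifs <;> simp

/-- combinatorial core: an alternating edge set uses an even number of outer edges -/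
theorem alt_even (o q s : Fin 5 → ℕ) (ho : ∀ i, o i ≤ 1) (hq : ∀ i, q i ≤ 1)
    (hs : ∀ i, s i ≤ 1) (h1 : ∀ i, s i = o i + o (i + 4)) (h2 : ∀ i, s i = q i + q (i + 3)) :
    Even (o 0 + o 1 + o 2 + o 3 + o 4) := by
  have o0 := ho 0
  have o1 := ho 1
  have o2 := ho 2
  have o3 := ho 3
  have o4 := ho 4
  have q0 := hq 0
  have q1 := hq 1
  have q2 := hq 2
  have q3 := hq 3
  have q4 := hq 4
  have s0 := hs 0
  have s1 := hs 1
  have s2 := hs 2
  have s3 := hs 3
  have s4 := hs 4
  have a0 : s 0 = o 0 + o 4 := h1 0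
  have a1 : s 1 = o 1 + o 0 := h1 1
  have a2 : s 2 = o 2 + o 1 := h1 2
  have a3 : s 3 = o 3 + o 2 := h1 3
  have a4 : s 4 = o 4 + o 3 := h1 4
  have b0 : s 0 = q 0 + q 3 := h2 0
  have b1 : s 1 = q 1 + q 4 := h2 1
  have b2 : s 2 = q 2 + q 0 := h2 2
  have b3 : s 3 = q 3 + q 1 := h2 3
  have b4 : s 4 = q 4 + q 2 := h2 4
  clear h1 h2 ho hq hs
  have c0 : o 0 + o 1 + o 2 + o 3 + o 4 ≤ 2 := by omega
  have c1 : o 0 + o 1 + o 2 + o 3 + o 4 ≠ 1 := by
    intro h
    have h5 : o 0 = 1 ∨ o 1 = 1 ∨ o 2 = 1 ∨ o 3 = 1 ∨ o 4 = 1 := by omega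
    rcases h5 with h5 | h5 | h5 | h5 | h5 <;> omega
  have c2 : o 0 + o 1 + o 2 + o 3 + o 4 = 0 ∨ o 0 + o 1 + o 2 + o 3 + o 4 = 2 := by omega
  rcases c2 with c2 | c2 <;> rw [c2] <;> decide

theorem sum_t (S : PetersenSubdivision G) (k : ℕ) (χ : Finset E → ℕ)
    (h : ∀ a, ∑ C ∈ univ.filter (fun C : Finset E => a ∈ C), χ C = wt S k a) (f : PE) :
    ∑ C : Finset E, χ C * t S C f = k * c f := by
  rw [← wt_e S k f 0 (S.len_pos f), ← h (S.e f 0), Finset.sum_filter]
  refine Finset.sum_congr rfl fun C _ => ?_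
  unfold t
  split_ifs <;> simp

theorem no_cover (S : PetersenSubdivision G) (k : ℕ) (hk : Odd k) :
    ¬ HasFaithfulCover G (wt S k) := by
  rintro ⟨χ, hχ, h⟩
  have hst := sum_t S k χ h
  have hC : ∀ C, χ C ≠ 0 → ∀ a ∈ C, ∃ f i, i < S.len f ∧ S.e f i = a := by
    intro C hCχ a ha
    apply wt_ne_zero S k a
    rw [← h a]
    have h1 := Finset.single_le_sum (f := χ) (s := univ.filter (fun C : Finset E => a ∈ C))
      (fun _ _ => Nat.zero_le _) (mem_filter.mpr ⟨mem_univ C, ha⟩)
    omega
  have hdeg : ∀ C, χ C ≠ 0 → ∀ v, (inc G C v).card = 0 ∨ (inc G C v).card = 2 :=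
    fun C hCχ => (hχ C hCχ).2.1
  -- tightness
  have tight1 : ∀ C, χ C ≠ 0 → ∀ i, t S C (1, i) = t S C (0, i) + t S C (0, i + 4) := by
    intro C hCχ i
    have h1 : ∀ D ∈ (univ : Finset (Finset E)),
        χ D * t S D (1, i) ≤ χ D * (t S D (0, i) + t S D (0, i + 4)) := by
      intro D _
      by_cases hD : χ D = 0
      · rw [hD]; simp
      · apply Nat.mul_le_mul_left
        have h2 := deg_outer S D (hdeg D hD) (hC D hD) i
        have h3 := t_le S D (1, i)
        omega
    have h2 : ∑ D : Finset E, χ D * t S D (1, i)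
        = ∑ D : Finset E, χ D * (t S D (0, i) + t S D (0, i + 4)) := by
      simp only [mul_add]
      rw [Finset.sum_add_distrib, hst, hst, hst, c0, c0, c1]
      ring
    have h3 := (Finset.sum_eq_sum_iff_of_le h1).mp h2 C (mem_univ C)
    exact Nat.eq_of_mul_eq_mul_left (Nat.pos_of_ne_zero hCχ) h3
  have tight2 : ∀ C, χ C ≠ 0 → ∀ i, t S C (1, i) = t S C (2, i) + t S C (2, i + 3) := by
    intro C hCχ i
    have h1 : ∀ D ∈ (univ : Finset (Finset E)),
        χ D * t S D (1, i) ≤ χ D * (t S D (2, i) + t S D (2, i + 3)) := by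
      intro D _
      by_cases hD : χ D = 0
      · rw [hD]; simp
      · apply Nat.mul_le_mul_left
        have h2 := deg_inner S D (hdeg D hD) (hC D hD) i
        have h3 := t_le S D (1, i)
        omega
    have h2 : ∑ D : Finset E, χ D * t S D (1, i)
        = ∑ D : Finset E, χ D * (t S D (2, i) + t S D (2, i + 3)) := by
      simp only [mul_add]
      rw [Finset.sum_add_distrib, hst, hst, hst, c2, c2, c1]
      ring
    have h3 := (Finset.sum_eq_sum_iff_of_le h1).mp h2 C (mem_univ C)
    exact Nat.eq_of_mul_eq_mul_left (Nat.pos_of_ne_zero hCχ) h3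
  have htot : ∑ C : Finset E, χ C * (t S C (0, 0) + t S C (0, 1) + t S C (0, 2) + t S C (0, 3)
      + t S C (0, 4)) = 5 * k := by
    simp only [mul_add]
    rw [Finset.sum_add_distrib, Finset.sum_add_distrib, Finset.sum_add_distrib,
      Finset.sum_add_distrib, hst, hst, hst, hst, hst, c0, c0, c0, c0, c0]
    ring
  have heven : Even (5 * k) := by
    rw [← htot]
    refine Finset.even_sum _ fun C _ => ?_
    by_cases hCχ : χ C = 0
    · rw [hCχ]; simp
    · exact (alt_even (fun i => t S C (0, i)) (fun i => t S C (2, i)) (fun i => t S C (1, i))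
        (fun i => t_le S C _) (fun i => t_le S C _) (fun i => t_le S C _)
        (tight1 C hCχ) (tight2 C hCχ)).mul_left _
  rw [Nat.even_mul] at heven
  rcases heven with h5 | h5
  · exact absurd h5 (by decide)
  · exact (Nat.not_even_iff_odd.mpr hk) h5

end Proof

/-- The Petersen graph itself. -/
def petersen : MGraph PV PE where
  ends f := s(src f, tgt f)
  loopless f := fun h => src_ne_tgt f (Sym2.mk_isDiag_iff.mp h)

/-- The Petersen graph as a (trivial) subdivision of itself. -/
def trivialSubdivision : PetersenSubdivision petersen where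
  b := id
  b_inj := Function.injective_id
  len _ := 1
  len_pos _ := Nat.one_pos
  x f i := if i = 0 then src f else tgt f
  e f _ := f
  x_zero f := by simp
  x_len f := by simp
  ends_e f i hi := by
    have : i = 0 := by omega
    subst this
    simp [petersen]
  interior f i g j hi hi' := by omega

/-- **Main theorem.** For every odd `k`: a finite graph with property `P_k` contains no
subdivision of the Petersen graph; in particular the Petersen graph does not have property
`P_k`. -/
theorem result (k : ℕ) (hk : Odd k) :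
    (∀ (V E : Type) [Fintype V] [DecidableEq V] [Fintype E] [DecidableEq E] (G : MGraph V E),
      HasP G k → IsEmpty (PetersenSubdivision G)) ∧ ¬ HasP petersen k := by
  have h : ∀ (V E : Type) [Fintype V] [DecidableEq V] [Fintype E] [DecidableEq E]
      (G : MGraph V E), HasP G k → IsEmpty (PetersenSubdivision G) :=
    fun V E _ _ _ _ G hG => ⟨fun S => no_cover S k hk
      (hG (wt S k) (dvd_wt S k) (admissible_wt S k) (eulerian_wt S k))⟩
  exact ⟨h, fun hP => (h PV PE petersen hP).false trivialSubdivision⟩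

end Pool.Agent.Results.MP_3c540c_co.OddMultiples
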